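import Pool.Agent.H94.LP7.H21.XF.Gen
import Pool.Agent.H94.LP7.M86

set_option autoImplicit false

namespace Pool.Agent.Results.MP_09261c_ag.AlmostAll

open Pool.Agent.H21

open scoped Classical in
/-- For every `d ≥ 2`: (i) given `a > 0`, for all large `n` Fröberg's conjecture holds in every degree
for every `u ≥ a n^d`; (ii) for all large `n` it holds in every degree for all but at most
`η dim S_d` of the `u` in `[1, dim S_d]`. -/
theorem result (d : ℕ) (hd : 2 ≤ d) :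
    (∀ a : ℝ, 0 < a → ∃ n₀ : ℕ, ∀ n : ℕ, n₀ ≤ n →
      ∀ u : ℕ, a * (n : ℝ) ^ d ≤ (u : ℝ) → FrobergAll n d u) ∧
    (∀ η : ℝ, 0 < η → ∃ n₀ : ℕ, ∀ n : ℕ, n₀ ≤ n →
      (((Finset.Icc 1 ((n - 1 + d).choose (n - 1))).filter
        (fun u => ¬ FrobergAll n d u)).card : ℝ) ≤ η * ((n - 1 + d).choose (n - 1) : ℝ)) :=
  ⟨fun a ha => XF.all_of_target Pool.Agent.GD.targetZero_main d hd a ha, density d hd⟩

end Pool.Agent.Results.MP_09261c_ag.AlmostAll
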