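import Pool.Agent.H94.LP7.H21.XF.Gen
import Pool.Agent.H94.LP7.M86

set_option autoImplicit false

namespace Pool.Agent.Results.MP_09261c_ag.FixedDegree

open Pool.Agent.H21

/-- Fröberg's formula in a fixed degree `j + d`: it holds for all large `n`, for every number `u` of
forms of degree `d` and over every field of characteristic zero. -/
theorem result (d j : ℕ) (hd : 2 ≤ d) :
    ∃ n₀ : ℕ, ∀ n : ℕ, n₀ ≤ n → ∀ u : ℕ, ∀ (K : Type) [Field K] [CharZero K],
      u ≤ Module.finrank K (MvPolynomial.homogeneousSubmodule (Fin n) K d) →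
        FrobergAt K n d u j := by
  obtain ⟨n₀, h⟩ := XF.closed_of_target Pool.Agent.GD.targetZero_main d (j + d) hd (by omega)
  rw [Nat.add_sub_cancel] at h
  exact ⟨n₀, h⟩

end Pool.Agent.Results.MP_09261c_ag.FixedDegree
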