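import Pool.Agent.FB.Many3

set_option autoImplicit false

namespace Pool.Agent.Results.MP_09261c_ag.ManyForms

open Pool.Agent.H21

/-- Fröberg's formula holds in degree `j + d` if `u ≥ 2^(n-1)` (any `j`), and, for every `u`, if
`j < d` and one of `n ≥ 2 j + 2`, `2 (n + j) dim S_j ≤ n dim S_d`, `d ≥ (n-1)^2 (n-2) 8^(n-1)`,
`2^(n-1) * dim S_j ≤ dim S_(j+d)` holds. If moreover `u dim S_j > dim S_(j+d)`, it holds in every
degree. -/
theorem result :
    ∀ n d u j : ℕ, 3 ≤ n →
      (2 ^ (n - 1) ≤ u ∨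
        (j < d ∧ (2 * j + 2 ≤ n ∨ 2 * (n + j) * dimS n j ≤ n * dimS n d ∨
          (n - 1) ^ 2 * (n - 2) * 8 ^ (n - 1) ≤ d ∨
          2 ^ (n - 1) * dimS n j ≤ dimS n (j + d)))) →
      ∀ (K : Type) [Field K] [CharZero K],
        u ≤ Module.finrank K (MvPolynomial.homogeneousSubmodule (Fin n) K d) →
        FrobergAt K n d u j ∧
          (j < d → dimS n (j + d) < u * dimS n j → ∀ i : ℕ, FrobergAt K n d u i) := by
  intro n d u j hn h K _ _ hu
  rcases h with h | ⟨h1, h2⟩
  · have h3 := Pool.Agent.FB.froberg_all2 (d := d) hn h K hu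
    exact ⟨h3 j, fun _ _ => h3⟩
  · have hn1 : 1 ≤ n := by omega
    have h3 : ∀ i : ℕ, i ≤ j → FrobergAt K n d u i := by
      intro i hi
      rcases h2 with h2 | h2
      · exact Pool.Agent.FB.froberg_low5 (by omega) (by omega) hu
      · refine Pool.Agent.FB.froberg_condJ hn1 (by omega)
          (Pool.Agent.FB.condJ_mono hn1 hi ?_) hu
        rcases h2 with h2 | h2 | h2
        · exact Or.inr (Or.inr h2)
        · exact Or.inl h2
        · exact Or.inr (Or.inl h2)
    exact ⟨h3 j le_rfl, fun _ h4 => Pool.Agent.FB.froberg_all_of_at hn1 h1 h3 h4⟩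

end Pool.Agent.Results.MP_09261c_ag.ManyForms
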